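import Mathlib

/-!
Regular type B sequences: `b(57, 62) = b(62) + 2`, so the inequality `b(k₁, k₂) ≤ b(k₂) + 1` for
`k₁ ≤ k₂` fails.
-/

namespace Pool.Agent.Results.MP_8dcfbf_co.GapTwo

/-- Regular type B sequences: `(1)`, and everything obtained from `(1,1)` by attaching at the left
or right end the sum of a nonempty block of consecutive terms. -/
inductive RegB : List ℕ → Prop
  | one : RegB [1]
  | base : RegB [1, 1]
  | front {d p : List ℕ} (h : RegB d) (h0 : p ≠ []) (hp : p <:+: d) : RegB (p.sum :: d)
  | back {d s : List ℕ} (h : RegB d) (h0 : s ≠ []) (hs : s <:+: d) : RegB (d ++ [s.sum])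

/-- The lengths of the regular type B sequences which contain some permutation of the multiset `ks`
as a subsequence. -/
def lengths (ks : Multiset ℕ) : Set ℕ :=
  {n | ∃ d, RegB d ∧ d.length = n ∧ ∃ t : List ℕ, t.Sublist d ∧ (t : Multiset ℕ) = ks}

/-- `b(k₁,…,k_m)`: the least length of a regular type B sequence containing some permutation of
the multiset as a subsequence. -/
noncomputable def b (ks : Multiset ℕ) : ℕ := sInf (lengths ks)

/-- The sums of the nonempty blocks. -/
def sums (d : List ℕ) : List ℕ :=
  ((List.range d.length).flatMap fun i =>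
    (List.range (d.length - i)).map fun j => ((d.drop i).take (j + 1)).sum).dedup

/-- All one-term extensions. -/
def step (d : List ℕ) : List (List ℕ) :=
  (sums d).map (fun v => v :: d) ++ (sums d).map (fun v => d ++ [v])

/-- Regular sequences of length `m + 2` whose sum is large enough. -/
def gen (T M : ℕ) : ℕ → List (List ℕ)
  | 0 => [[1, 1]]
  | m + 1 => ((gen T M m).flatMap step).filter (fun d => T ≤ d.sum * 2 ^ (M - (m + 1)))

theorem mem_sums {d p : List ℕ} (h0 : p ≠ []) (hp : p <:+: d) : p.sum ∈ sums d := by
  obtain ⟨s, t, rfl⟩ := hp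
  have hl : 0 < p.length := List.length_pos_of_ne_nil h0
  unfold sums
  rw [List.mem_dedup, List.mem_flatMap]
  refine ⟨s.length, ?_, ?_⟩
  · rw [List.mem_range]; simp; omega
  · rw [List.mem_map]
    refine ⟨p.length - 1, ?_, ?_⟩
    · rw [List.mem_range]; simp; omega
    · rw [Nat.sub_add_cancel hl]
      simp [List.append_assoc]

theorem RegB.one_le {d : List ℕ} (h : RegB d) : 1 ≤ d.length := by
  cases h <;> simp

theorem sum_le_of_sublist {p d : List ℕ} (h : p.Sublist d) : p.sum ≤ d.sum := h.sum_le_sum (by simp)

theorem RegB.sum_le {d : List ℕ} (h : RegB d) : d.sum * 2 ≤ 2 ^ d.length := by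
  induction h with
  | one => simp
  | base => simp
  | front _ _ hp ih =>
    have := sum_le_of_sublist hp.sublist
    simp [pow_succ]; omega
  | back _ _ hp ih =>
    have := sum_le_of_sublist hp.sublist
    simp [pow_succ]; omega

theorem le_sum {d : List ℕ} {x : ℕ} (hx : x ∈ d) : x ≤ d.sum :=
  List.single_le_sum (by simp) x hx

/-- Every regular sequence of length at least `3` is a one-term extension. -/
theorem RegB.exists_step {d : List ℕ} (h : RegB d) (h3 : 3 ≤ d.length) :
    ∃ d', RegB d' ∧ d'.length + 1 = d.length ∧ d ∈ step d' ∧ d.sum ≤ 2 * d'.sum ∧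
      ∀ x ∈ d, x ∈ d' ∨ x ≤ d'.sum := by
  cases h with
  | one => simp at h3
  | base => simp at h3
  | @front d p h h0 hp =>
    refine ⟨d, h, by simp, ?_, ?_, ?_⟩
    · unfold step
      rw [List.mem_append]
      left
      rw [List.mem_map]
      exact ⟨p.sum, mem_sums h0 hp, rfl⟩
    · have := sum_le_of_sublist hp.sublist
      simp; omega
    · intro x hx
      simp only [List.mem_cons] at hx
      rcases hx with rfl | hx
      · exact Or.inr (sum_le_of_sublist hp.sublist)
      · exact Or.inl hx
  | @back d s h h0 hs =>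
    refine ⟨d, h, by simp, ?_, ?_, ?_⟩
    · unfold step
      rw [List.mem_append]
      right
      rw [List.mem_map]
      exact ⟨s.sum, mem_sums h0 hs, rfl⟩
    · have := sum_le_of_sublist hs.sublist
      simp; omega
    · intro x hx
      simp only [List.mem_append, List.mem_singleton] at hx
      rcases hx with hx | rfl
      · exact Or.inl hx
      · exact Or.inr (sum_le_of_sublist hs.sublist)

theorem eq_one {d : List ℕ} (h : RegB d) (hl : d.length = 1) : d = [1] := by
  cases h with
  | one => rfl
  | base => simp at hl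
  | front h _ _ => have := h.one_le; simp at hl; subst hl; simp at this
  | back h _ _ => have := h.one_le; simp at hl; subst hl; simp at this

theorem infix_one {p : List ℕ} (h0 : p ≠ []) (hp : p <:+: [1]) : p = [1] := by
  have h1 := hp.length_le
  have h2 : 0 < p.length := List.length_pos_of_ne_nil h0
  exact hp.eq_of_length (by simp at h1 ⊢; omega)

theorem eq_one_one {d : List ℕ} (h : RegB d) (hl : d.length = 2) : d = [1, 1] := by
  cases h with
  | one => simp at hl
  | base => rfl
  | front h h0 hp =>
    obtain rfl := eq_one h (by simpa using hl)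
    obtain rfl := infix_one h0 hp
    simp
  | back h h0 hp =>
    obtain rfl := eq_one h (by simpa using hl)
    obtain rfl := infix_one h0 hp
    simp

theorem mem_gen {T M : ℕ} : ∀ (m : ℕ) (d : List ℕ), RegB d → d.length = m + 2 → m ≤ M →
    T ≤ d.sum * 2 ^ (M - m) → d ∈ gen T M m := by
  intro m
  induction m with
  | zero =>
    intro d hd hl _ _
    simp [gen, eq_one_one hd (by simpa using hl)]
  | succ m ih =>
    intro d hd hl hM hT
    obtain ⟨d', hd', hl', hs, hsum, -⟩ := hd.exists_step (by omega)
    have h1 : d' ∈ gen T M m := by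
      refine ih d' hd' (by omega) (by omega) ?_
      have e : M - m = (M - (m + 1)) + 1 := by omega
      rw [e, pow_succ]
      calc T ≤ d.sum * 2 ^ (M - (m + 1)) := hT
        _ ≤ (2 * d'.sum) * 2 ^ (M - (m + 1)) := Nat.mul_le_mul_right _ hsum
        _ = d'.sum * (2 ^ (M - (m + 1)) * 2) := by ring
    unfold gen
    rw [List.mem_filter, List.mem_flatMap]
    exact ⟨⟨d', h1, hs⟩, by simpa using hT⟩

/-- A regular sequence may be extended to any larger length. -/
theorem RegB.extend {d : List ℕ} (h : RegB d) : ∀ k, ∃ d', RegB d' ∧ d'.length = d.length + k ∧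
    ∀ x ∈ d, x ∈ d' := by
  intro k
  induction k with
  | zero => exact ⟨d, h, rfl, fun x hx => hx⟩
  | succ k ih =>
    obtain ⟨d', h', hl, hm⟩ := ih
    have := h'.one_le
    refine ⟨d'.sum :: d', RegB.front h' (by rintro rfl; simp at this) (List.infix_refl _), ?_, ?_⟩
    · simp [hl]; omega
    · intro x hx; exact List.mem_cons_of_mem _ (hm x hx)

theorem check : ((gen 57 5 5).all fun d => (step d).all fun d1 =>
    !(d1.contains 57 || d1.contains 62) ||
      (step d1).all fun d2 => !(d2.contains 57 && d2.contains 62)) = true := by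
  decide +kernel

/-- Only one term is new in a one-term extension. -/
theorem mem_of_step {d d' : List ℕ} (hs : d ∈ step d') (h57 : 57 ∈ d) (h62 : 62 ∈ d) :
    57 ∈ d' ∨ 62 ∈ d' := by
  unfold step at hs
  simp only [List.mem_append, List.mem_map] at hs
  rcases hs with ⟨v, -, rfl⟩ | ⟨v, -, rfl⟩
  · simp only [List.mem_cons] at h57 h62
    rcases h57 with h57 | h57
    · rcases h62 with h62 | h62
      · omega
      · exact Or.inr h62
    · exact Or.inl h57
  · simp only [List.mem_append, List.mem_singleton] at h57 h62
    rcases h57 with h57 | h57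
    · exact Or.inl h57
    · rcases h62 with h62 | h62
      · exact Or.inr h62
      · omega

/-- No regular type B sequence with at most nine terms contains both 57 and 62. -/
theorem no_short {d : List ℕ} (h : RegB d) (hl : d.length ≤ 9) : ¬ (57 ∈ d ∧ 62 ∈ d) := by
  rintro ⟨h57, h62⟩
  obtain ⟨d9, h9, hl9, hm⟩ := h.extend (9 - d.length)
  have hl9 : d9.length = 9 := by omega
  obtain ⟨d8, h8, hl8, hs9, -, hx9⟩ := h9.exists_step (by omega)
  obtain ⟨d7, h7, hl7, hs8, -, hx8⟩ := h8.exists_step (by omega)
  obtain ⟨d6, h6, hl6, -, -, hx7⟩ := h7.exists_step (by omega)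
  have m57 := hm _ h57
  have m62 := hm _ h62
  have e7 : d7.length = 7 := by omega
  have b6 := h6.sum_le
  have e6 : d6.length = 6 := by omega
  rw [e6] at b6
  norm_num at b6
  have m8 := mem_of_step hs9 m57 m62
  have big : 57 ≤ d7.sum := by
    by_contra hlt
    push Not at hlt
    have key : ∀ x ∈ d8, x < 57 := by
      intro x hx
      rcases hx8 x hx with hx | hx
      · rcases hx7 x hx with hx | hx
        · have := le_sum hx; omega
        · omega
      · omega
    rcases m8 with h | h
    · exact absurd (key _ h) (by omega)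
    · exact absurd (key _ h) (by omega)
  have hg : d7 ∈ gen 57 5 5 := mem_gen 5 d7 h7 e7 le_rfl (by simpa using big)
  have c := List.all_eq_true.mp (List.all_eq_true.mp check d7 hg) d8 hs8
  rw [Bool.or_eq_true] at c
  rcases c with c | c
  · simp only [Bool.not_eq_true', Bool.or_eq_false_iff, List.contains_eq_mem,
      decide_eq_false_iff_not] at c
    exact m8.elim c.1 c.2
  · have c := List.all_eq_true.mp c d9 hs9
    simp only [Bool.not_eq_true', Bool.and_eq_false_iff, List.contains_eq_mem,
      decide_eq_false_iff_not] at c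
    exact c.elim (fun c => c m57) (fun c => c m62)

theorem regB8 : RegB [62, 32, 16, 8, 4, 2, 1, 1] := by
  have h := RegB.base
  have h := RegB.front (p := [1, 1]) h (by simp) (by simp)
  have h := RegB.front (p := [2, 1, 1]) h (by simp) (by simp)
  have h := RegB.front (p := [4, 2, 1, 1]) h (by simp) (by simp)
  have h := RegB.front (p := [8, 4, 2, 1, 1]) h (by simp) (by simp)
  have h := RegB.front (p := [16, 8, 4, 2, 1, 1]) h (by simp) (by simp)
  have h := RegB.front (p := [32, 16, 8, 4, 2]) h (by simp) ⟨[], [1, 1], by simp⟩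
  simpa using h

theorem regB10 : RegB [57, 62, 32, 16, 8, 4, 2, 1, 1, 56] := by
  have h := RegB.back (s := [32, 16, 8]) regB8 (by simp) ⟨[62], [4, 2, 1, 1], by simp⟩
  have h := RegB.front (p := [1, 56]) h (by simp) ⟨[62, 32, 16, 8, 4, 2, 1], [], by simp⟩
  simpa using h

theorem b62 : b {62} = 8 := by
  apply le_antisymm
  · apply Nat.sInf_le
    exact ⟨_, regB8, rfl, [62], by simp, rfl⟩
  · apply le_csInf
    · exact ⟨8, _, regB8, rfl, [62], by simp, rfl⟩
    · rintro n ⟨d, hd, rfl, t, ht, hts⟩
      have h62 : 62 ∈ d := by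
        apply ht.subset
        have : (62 : ℕ) ∈ (t : Multiset ℕ) := by rw [hts]; simp
        simpa using this
      by_contra hlt
      push Not at hlt
      obtain ⟨d7, h7, hl7, hm⟩ := hd.extend (7 - d.length)
      obtain ⟨d6, h6, hl6, -, -, hx7⟩ := h7.exists_step (by omega)
      have b6 := h6.sum_le
      have e6 : d6.length = 6 := by omega
      rw [e6] at b6
      norm_num at b6
      rcases hx7 62 (hm _ h62) with hx | hx
      · have := le_sum hx; omega
      · omega

theorem b57_62 : b {57, 62} = 10 := by
  apply le_antisymm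
  · apply Nat.sInf_le
    exact ⟨_, regB10, rfl, [57, 62], by decide, rfl⟩
  · apply le_csInf
    · exact ⟨10, _, regB10, rfl, [57, 62], by decide, rfl⟩
    · rintro n ⟨d, hd, rfl, t, ht, hts⟩
      have h57 : 57 ∈ d := by
        apply ht.subset
        have : (57 : ℕ) ∈ (t : Multiset ℕ) := by rw [hts]; simp
        simpa using this
      have h62 : 62 ∈ d := by
        apply ht.subset
        have : (62 : ℕ) ∈ (t : Multiset ℕ) := by rw [hts]; simp
        simpa using this
      by_contra hlt
      push Not at hlt
      exact no_short hd (by omega) ⟨h57, h62⟩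

/-- `b(62) = 8` and `b(57, 62) = 10`; hence the inequality `b(k₁,k₂) ≤ b(k₂) + 1` is not true for
all positive integers `k₁ ≤ k₂`. -/
theorem result : (b {62} = 8 ∧ b {57, 62} = 10) ∧
    ¬ ∀ k₁ k₂ : ℕ, 0 < k₁ → k₁ ≤ k₂ → b {k₁, k₂} ≤ b {k₂} + 1 := by
  refine ⟨⟨b62, b57_62⟩, fun h => ?_⟩
  have := h 57 62 (by norm_num) (by norm_num)
  rw [b62, b57_62] at this
  omega

end Pool.Agent.Results.MP_8dcfbf_co.GapTwo
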